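import Mathlib
import Pool.Agent.Helper133.CD.Stmt

set_option autoImplicit false

namespace Pool.Agent.Helper133.CD

open scoped InnerProductSpace

universe u

/-- liftings of derivations (the consequence of dimension at most one) -/
def Lifts (A : Type u) [NonUnitalNormedRing A] [NormedSpace ℂ A] : Prop :=
  ∀ (M V Q : Type u) [NormedAddCommGroup M] [NormedSpace ℂ M] [CompleteSpace M]
    [NormedAddCommGroup V] [NormedSpace ℂ V] [CompleteSpace V]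
    [NormedAddCommGroup Q] [NormedSpace ℂ Q] [CompleteSpace Q]
    (αM : A →L[ℂ] M →L[ℂ] M) (αV : A →L[ℂ] V →L[ℂ] V) (αQ : A →L[ℂ] Q →L[ℂ] Q),
    (∀ a b x, αM (a * b) x = αM a (αM b x)) → (∀ a b x, αV (a * b) x = αV a (αV b x)) →
    (∀ a b x, αQ (a * b) x = αQ a (αQ b x)) →
    ∀ (q : Q →L[ℂ] V) (s : V →L[ℂ] Q), (∀ a y, q (αQ a y) = αV a (q y)) → (∀ v, q (s v) = v) →
    ∀ D : A →L[ℂ] M →L[ℂ] V, (∀ a b x, D (a * b) x = αV a (D b x) + D a (αM b x)) →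
    ∃ (D' : A →L[ℂ] M →L[ℂ] Q) (S : M →L[ℂ] V),
      (∀ a b x, D' (a * b) x = αQ a (D' b x) + D' a (αM b x)) ∧
      ∀ a x, D a x = q (D' a x) + αV a (S x) - S (αM a x)

/-- the Hilbert space data attached to an infinite dimensional C*-algebra -/
structure Data (A : Type u) [NonUnitalCStarAlgebra A] where
  H : Type u
  [hN : NormedAddCommGroup H]
  [hI : InnerProductSpace ℂ H]
  [hC : CompleteSpace H]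
  K : Type u
  [kN : NormedAddCommGroup K]
  [kI : InnerProductSpace ℂ K]
  [kC : CompleteSpace K]
  ρ : A →L[ℂ] H →L[ℂ] H
  π : A →L[ℂ] K →L[ℂ] K
  ρ_mul : ∀ x y h, ρ (x * y) h = ρ x (ρ y h)
  π_mul : ∀ x y k, π (x * y) k = π x (π y k)
  ρ_star : ∀ x h h', ⟪ρ (star x) h, h'⟫_ℂ = ⟪h, ρ x h'⟫_ℂ
  π_star : ∀ x k k', ⟪π (star x) k, k'⟫_ℂ = ⟪k, π x k'⟫_ℂ
  ρ_norm : ∀ x, ‖ρ x‖ ≤ ‖x‖
  π_norm : ∀ x, ‖π x‖ ≤ ‖x‖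
  a : ℕ → A
  a_star : ∀ n, star (a n) = a n
  a_orth : ∀ m n, m ≠ n → a m * a n = 0
  a_norm : ∀ (s : Finset ℕ) (c : ℕ → ℂ), (∀ n ∈ s, ‖c n‖ ≤ 1) → ‖∑ n ∈ s, c n • a n‖ ≤ 1
  ζ : ℕ → K
  ζ_norm : ∀ n, ‖ζ n‖ = 1
  a_ζ : ∀ n, π (a n) (ζ n) = ζ n
  ξ : H
  ξ_norm : ‖ξ‖ = 1
  a_ξ : ∀ n, ρ (a n) ξ = 0
  el : ∀ (s : Finset (A × H)) (ε : ℝ), 0 < ε → ∀ N : ℕ, ∃ m, N ≤ m ∧
    ∃ Z : H →L[ℂ] K, ‖Z‖ ≤ 2 ∧ Z ξ = ζ m ∧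
    ∀ p ∈ s, ‖Z (ρ p.1 p.2) - π p.1 (Z p.2)‖ ≤ ε ∧ ‖⟪ζ m, Z p.2⟫_ℂ - ⟪ξ, p.2⟫_ℂ‖ ≤ ε

attribute [instance] Data.hN Data.hI Data.hC Data.kN Data.kI Data.kC

end Pool.Agent.Helper133.CD
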