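import Mathlib

set_option autoImplicit false

namespace Pool.Agent.Helper133.CD.J9

open scoped InnerProductSpace
universe u

theorem mv_bil {A E E' : Type u} [NormedAddCommGroup A] [NormedSpace ℂ A]
    [NormedAddCommGroup E] [NormedSpace ℂ E] [NormedAddCommGroup E'] [NormedSpace ℂ E']
    (L : Type u) (B : L → A →L[ℂ] E →L[ℂ] E') (C : ℝ) (hC0 : 0 ≤ C) (hC : ∀ l, ‖B l‖ ≤ C) :
    ∃ Φ : A →L[ℂ] lp (fun _ : L => E) ⊤ →L[ℂ] lp (fun _ : L => E') ⊤,
      ∀ a x l, Φ a x l = B l a (x l) := by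
  have hbd : ∀ (a : A) (x : lp (fun _ : L => E) ⊤) (l : L), ‖B l a (x l)‖ ≤ C * ‖a‖ * ‖x‖ := by
    intro a x l
    calc ‖B l a (x l)‖ ≤ ‖B l a‖ * ‖x l‖ := (B l a).le_opNorm _
      _ ≤ (‖B l‖ * ‖a‖) * ‖x‖ :=
          mul_le_mul ((B l).le_opNorm a) (lp.norm_apply_le_norm (by norm_num) x l)
            (norm_nonneg _) (by positivity)
      _ ≤ C * ‖a‖ * ‖x‖ := by
          have := hC l
          gcongr
  have hmem : ∀ (a : A) (x : lp (fun _ : L => E) ⊤), Memℓp (fun l => B l a (x l)) ⊤ := by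
    intro a x
    apply memℓp_infty
    refine ⟨C * ‖a‖ * ‖x‖, ?_⟩
    rintro _ ⟨l, rfl⟩
    exact hbd a x l
  let f : A →ₗ[ℂ] lp (fun _ : L => E) ⊤ →ₗ[ℂ] lp (fun _ : L => E') ⊤ :=
    LinearMap.mk₂ ℂ (fun a x => (⟨fun l => B l a (x l), hmem a x⟩ : lp (fun _ : L => E') ⊤))
      (by
        intro a a' x
        apply lp.ext
        funext l
        show B l (a + a') (x l) = B l a (x l) + B l a' (x l)
        rw [map_add]; rfl)
      (by
        intro t a x
        apply lp.ext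
        funext l
        show B l (t • a) (x l) = t • B l a (x l)
        rw [map_smul]; rfl)
      (by
        intro a x x'
        apply lp.ext
        funext l
        show B l a ((x + x') l) = B l a (x l) + B l a (x' l)
        rw [lp.coeFn_add, Pi.add_apply, map_add])
      (by
        intro t a x
        apply lp.ext
        funext l
        show B l a ((t • x) l) = t • B l a (x l)
        rw [lp.coeFn_smul, Pi.smul_apply, map_smul])
  have hf : ∀ a x l, f a x l = B l a (x l) := fun a x l => rfl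
  refine ⟨f.mkContinuous₂ C (fun a x => ?_), fun a x l => rfl⟩
  exact lp.norm_le_of_forall_le (by positivity) (fun l => hbd a x l)

theorem mv_restr {A X X' Y : Type u} [NormedAddCommGroup A] [NormedSpace ℂ A]
    [NormedAddCommGroup X] [NormedSpace ℂ X] [NormedAddCommGroup X'] [NormedSpace ℂ X']
    [NormedAddCommGroup Y] [NormedSpace ℂ Y] (Φ : A →L[ℂ] X →L[ℂ] Y) (j : X' →L[ℂ] X)
    (Q : Submodule ℂ Y) (h : ∀ a x, Φ a (j x) ∈ Q) :
    ∃ Ψ : A →L[ℂ] X' →L[ℂ] Q, ∀ a x, (Ψ a x : Y) = Φ a (j x) := by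
  let f : A →ₗ[ℂ] X' →ₗ[ℂ] Q :=
    LinearMap.mk₂ ℂ (fun a x => (⟨Φ a (j x), h a x⟩ : Q))
      (by
        intro a a' x
        apply Subtype.ext
        show Φ (a + a') (j x) = Φ a (j x) + Φ a' (j x)
        rw [map_add]; rfl)
      (by
        intro t a x
        apply Subtype.ext
        show Φ (t • a) (j x) = t • Φ a (j x)
        rw [map_smul]; rfl)
      (by
        intro a x x'
        apply Subtype.ext
        show Φ a (j (x + x')) = Φ a (j x) + Φ a (j x')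
        rw [map_add, map_add])
      (by
        intro t a x
        apply Subtype.ext
        show Φ a (j (t • x)) = t • Φ a (j x)
        rw [map_smul, map_smul])
  refine ⟨f.mkContinuous₂ (‖Φ‖ * ‖j‖) (fun a x => ?_), fun a x => rfl⟩
  show ‖Φ a (j x)‖ ≤ ‖Φ‖ * ‖j‖ * ‖a‖ * ‖x‖
  calc ‖Φ a (j x)‖ ≤ ‖Φ a‖ * ‖j x‖ := (Φ a).le_opNorm _
    _ ≤ (‖Φ‖ * ‖a‖) * (‖j‖ * ‖x‖) :=
        mul_le_mul (Φ.le_opNorm a) (j.le_opNorm x) (norm_nonneg _) (by positivity)
    _ = ‖Φ‖ * ‖j‖ * ‖a‖ * ‖x‖ := by ring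

theorem mv_comm {A H K : Type u} [NormedAddCommGroup A] [NormedSpace ℂ A]
    [NormedAddCommGroup H] [NormedSpace ℂ H] [NormedAddCommGroup K] [NormedSpace ℂ K]
    (ρ : A →L[ℂ] H →L[ℂ] H) (π : A →L[ℂ] K →L[ℂ] K) (W : K →L[ℂ] H) (hW : ‖W‖ ≤ 2) :
    ∃ B : A →L[ℂ] K →L[ℂ] H, (∀ a x, B a x = ρ a (W x) - W (π a x)) ∧
      ‖B‖ ≤ 2 * ‖ρ‖ + 2 * ‖π‖ := by
  let f : A →ₗ[ℂ] K →ₗ[ℂ] H :=
    LinearMap.mk₂ ℂ (fun a x => ρ a (W x) - W (π a x))
      (by
        intro a a' x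
        simp only [map_add, ContinuousLinearMap.add_apply]
        abel)
      (by
        intro t a x
        simp only [map_smul, ContinuousLinearMap.smul_apply]
        rw [smul_sub])
      (by
        intro a x x'
        simp only [map_add]
        abel)
      (by
        intro t a x
        simp only [map_smul]
        rw [smul_sub])
  have hbd : ∀ a x, ‖f a x‖ ≤ (2 * ‖ρ‖ + 2 * ‖π‖) * ‖a‖ * ‖x‖ := by
    intro a x
    show ‖ρ a (W x) - W (π a x)‖ ≤ _
    have h1 : ‖ρ a (W x)‖ ≤ 2 * ‖ρ‖ * ‖a‖ * ‖x‖ := by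
      calc ‖ρ a (W x)‖ ≤ ‖ρ a‖ * ‖W x‖ := (ρ a).le_opNorm _
        _ ≤ (‖ρ‖ * ‖a‖) * (2 * ‖x‖) :=
            mul_le_mul (ρ.le_opNorm a) (W.le_of_opNorm_le hW x) (norm_nonneg _) (by positivity)
        _ = 2 * ‖ρ‖ * ‖a‖ * ‖x‖ := by ring
    have h2 : ‖W (π a x)‖ ≤ 2 * ‖π‖ * ‖a‖ * ‖x‖ := by
      calc ‖W (π a x)‖ ≤ 2 * ‖π a x‖ := W.le_of_opNorm_le hW _
        _ ≤ 2 * (‖π a‖ * ‖x‖) := by gcongr; exact (π a).le_opNorm x
        _ ≤ 2 * ((‖π‖ * ‖a‖) * ‖x‖) := by gcongr; exact π.le_opNorm a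
        _ = 2 * ‖π‖ * ‖a‖ * ‖x‖ := by ring
    calc ‖ρ a (W x) - W (π a x)‖ ≤ ‖ρ a (W x)‖ + ‖W (π a x)‖ := norm_sub_le _ _
      _ ≤ (2 * ‖ρ‖ + 2 * ‖π‖) * ‖a‖ * ‖x‖ := by linarith
  refine ⟨f.mkContinuous₂ (2 * ‖ρ‖ + 2 * ‖π‖) hbd, fun a x => rfl, ?_⟩
  exact LinearMap.mkContinuous₂_norm_le f (by positivity) hbd

/-- the modules of bounded families and of weakly null families, and the commutator derivation -/
theorem exists_MV (A : Type u) [NonUnitalNormedRing A] [NormedSpace ℂ A] [IsScalarTower ℂ A A]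
    [SMulCommClass ℂ A A] (H K : Type u) [NormedAddCommGroup H] [InnerProductSpace ℂ H]
    [CompleteSpace H] [NormedAddCommGroup K] [InnerProductSpace ℂ K] [CompleteSpace K]
    (ρ : A →L[ℂ] H →L[ℂ] H) (π : A →L[ℂ] K →L[ℂ] K)
    (hρ : ∀ x y h, ρ (x * y) h = ρ x (ρ y h)) (hπ : ∀ x y k, π (x * y) k = π x (π y k))
    (L : Type u) (F : Filter L) (W : L → K →L[ℂ] H) (hW : ∀ l, ‖W l‖ ≤ 2) (z : L → K)
    (hz : ∀ l, ‖z l‖ ≤ 1)
    (hWF : ∀ (b : A) (h : H) (x : L → K) (C : ℝ), (∀ l, ‖x l‖ ≤ C) →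
      Filter.Tendsto (fun l => ⟪h, ρ b (W l (x l)) - W l (π b (x l))⟫_ℂ) F (nhds 0)) :
    ∃ (M : Type u) (_ : NormedAddCommGroup M) (_ : NormedSpace ℂ M) (_ : CompleteSpace M)
      (V : Type u) (_ : NormedAddCommGroup V) (_ : NormedSpace ℂ V) (_ : CompleteSpace V)
      (αM : A →L[ℂ] M →L[ℂ] M) (αV : A →L[ℂ] V →L[ℂ] V) (D : A →L[ℂ] M →L[ℂ] V)
      (zT : Set L → M) (c : L → V →L[ℂ] H),
      (∀ a b x, αM (a * b) x = αM a (αM b x)) ∧ (∀ a b x, αV (a * b) x = αV a (αV b x)) ∧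
      (∀ a b x, D (a * b) x = αV a (D b x) + D a (αM b x)) ∧
      (∀ T T', Disjoint T T' → zT (T ∪ T') = zT T + zT T') ∧
      (∀ T, ‖zT T‖ ≤ 1) ∧
      (∀ (s : Finset L) (e : L → ℂ), (∀ l ∈ s, ‖e l‖ ≤ 1) → ‖∑ l ∈ s, e l • zT {l}‖ ≤ 1) ∧
      (∀ a l, π a (z l) = z l → αM a (zT {l}) = zT {l}) ∧
      (∀ l v, ‖c l v‖ ≤ ‖v‖) ∧
      (∀ l a v, c l (αV a v) = ρ a (c l v)) ∧
      (∀ v h, Filter.Tendsto (fun l => ⟪h, c l v⟫_ℂ) F (nhds 0)) ∧
      (∀ l a, c l (D a (zT {l})) = ρ a (W l (z l)) - W l (π a (z l))) := by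
  classical
  -- operators on the spaces of bounded families
  obtain ⟨αM, hαM⟩ := mv_bil L (fun _ : L => π) ‖π‖ (norm_nonneg _) (fun _ => le_rfl)
  obtain ⟨αH, hαH⟩ := mv_bil L (fun _ : L => ρ) ‖ρ‖ (norm_nonneg _) (fun _ => le_rfl)
  choose B hB hBn using fun l => mv_comm ρ π (W l) (hW l)
  obtain ⟨D0, hD0⟩ := mv_bil L B (2 * ‖ρ‖ + 2 * ‖π‖) (by positivity) hBn
  -- weakly null families
  let VS : Submodule ℂ (lp (fun _ : L => H) ⊤) :=
    { carrier := {v | ∀ h : H, Filter.Tendsto (fun l => ⟪h, v l⟫_ℂ) F (nhds 0)}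
      zero_mem' := by
        intro h
        have h1 : (fun l => ⟪h, (0 : lp (fun _ : L => H) ⊤) l⟫_ℂ) = fun _ => (0:ℂ) := by
          funext l
          rw [lp.coeFn_zero, Pi.zero_apply, inner_zero_right]
        rw [h1]
        exact tendsto_const_nhds
      add_mem' := by
        intro v w hv hw h
        have h1 : (fun l => ⟪h, (v + w : lp (fun _ : L => H) ⊤) l⟫_ℂ)
            = fun l => ⟪h, v l⟫_ℂ + ⟪h, w l⟫_ℂ := by
          funext l
          rw [lp.coeFn_add, Pi.add_apply, inner_add_right]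
        rw [h1]
        have h2 := (hv h).add (hw h)
        rwa [add_zero] at h2
      smul_mem' := by
        intro t v hv h
        have h1 : (fun l => ⟪h, (t • v : lp (fun _ : L => H) ⊤) l⟫_ℂ)
            = fun l => t * ⟪h, v l⟫_ℂ := by
          funext l
          rw [lp.coeFn_smul, Pi.smul_apply, inner_smul_right]
        rw [h1]
        have h2 := (hv h).const_mul t
        rwa [mul_zero] at h2 }
  have hVS : ∀ v, v ∈ VS ↔ ∀ h : H, Filter.Tendsto (fun l => ⟪h, v l⟫_ℂ) F (nhds 0) :=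
    fun v => Iff.rfl
  have hclosed : IsClosed (VS : Set (lp (fun _ : L => H) ⊤)) := by
    apply isClosed_of_closure_subset
    intro v hv h
    rw [Metric.tendsto_nhds]
    intro ε hε
    obtain ⟨w, hw, hvw⟩ := Metric.mem_closure_iff.mp hv (ε / 2 / (‖h‖ + 1)) (by positivity)
    have hw1 := (Metric.tendsto_nhds.mp (hw h)) (ε / 2) (by positivity)
    filter_upwards [hw1] with l hl
    rw [dist_zero_right] at hl ⊢
    have h1 : ⟪h, v l⟫_ℂ = ⟪h, w l⟫_ℂ + ⟪h, v l - w l⟫_ℂ := by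
      rw [inner_sub_right]; ring
    have h2 : ‖v l - w l‖ ≤ dist v w := by
      rw [dist_eq_norm]
      have := lp.norm_apply_le_norm (by norm_num : (⊤ : ENNReal) ≠ 0) (v - w) l
      rwa [lp.coeFn_sub, Pi.sub_apply] at this
    have h3 : ‖⟪h, v l - w l⟫_ℂ‖ ≤ ε / 2 := by
      calc ‖⟪h, v l - w l⟫_ℂ‖ ≤ ‖h‖ * ‖v l - w l‖ := norm_inner_le_norm _ _
        _ ≤ (‖h‖ + 1) * (ε / 2 / (‖h‖ + 1)) := by
            apply mul_le_mul (by linarith) (h2.trans hvw.le) (norm_nonneg _) (by positivity)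
        _ = ε / 2 := by
            have : ‖h‖ + 1 ≠ 0 := by positivity
            field_simp
    rw [h1]
    calc ‖⟪h, w l⟫_ℂ + ⟪h, v l - w l⟫_ℂ‖ ≤ ‖⟪h, w l⟫_ℂ‖ + ‖⟪h, v l - w l⟫_ℂ‖ := norm_add_le _ _
      _ < ε := by linarith
  have hcomp : CompleteSpace VS := hclosed.completeSpace_coe
  have hVinv : ∀ (a : A) (v : VS), αH a (VS.subtypeL v) ∈ VS := by
    intro a v h
    have h1 : (fun l => ⟪h, (αH a (VS.subtypeL v)) l⟫_ℂ)
        = fun l => ⟪(ContinuousLinearMap.adjoint (ρ a)) h, (v : lp (fun _ : L => H) ⊤) l⟫_ℂ := by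
      funext l
      rw [hαH, ContinuousLinearMap.adjoint_inner_left]
      rfl
    rw [h1]
    exact v.2 _
  obtain ⟨αV, hαV⟩ := mv_restr αH VS.subtypeL VS hVinv
  have hDinv : ∀ (a : A) (x : lp (fun _ : L => K) ⊤),
      D0 a (ContinuousLinearMap.id ℂ _ x) ∈ VS := by
    intro a x h
    have h1 : (fun l => ⟪h, (D0 a (ContinuousLinearMap.id ℂ _ x)) l⟫_ℂ)
        = fun l => ⟪h, ρ a (W l (x l)) - W l (π a (x l))⟫_ℂ := by
      funext l
      rw [hD0, hB]
      rfl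
    rw [h1]
    exact hWF a h (fun l => x l) ‖x‖
      (fun l => lp.norm_apply_le_norm (by norm_num : (⊤ : ENNReal) ≠ 0) x l)
  obtain ⟨D, hD⟩ := mv_restr D0 (ContinuousLinearMap.id ℂ _) VS hDinv
  have hDl : ∀ a x l, ((D a x : VS) : lp (fun _ : L => H) ⊤) l
      = ρ a (W l (x l)) - W l (π a (x l)) := by
    intro a x l
    rw [hD, hD0, hB]
    rfl
  have hαVl : ∀ a (v : VS) l, ((αV a v : VS) : lp (fun _ : L => H) ⊤) l
      = ρ a ((v : lp (fun _ : L => H) ⊤) l) := by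
    intro a v l
    rw [hαV, hαH]
    rfl
  -- the families z on T
  have hzm : ∀ T : Set L, Memℓp (fun l => if l ∈ T then z l else 0) ⊤ := by
    intro T
    apply memℓp_infty
    refine ⟨1, ?_⟩
    rintro _ ⟨l, rfl⟩
    simp only
    split_ifs
    · exact hz l
    · rw [norm_zero]; exact zero_le_one
  obtain ⟨zT, hzT⟩ : ∃ zT : Set L → lp (fun _ : L => K) ⊤,
      ∀ T l, zT T l = if l ∈ T then z l else 0 :=
    ⟨fun T => ⟨fun l => if l ∈ T then z l else 0, hzm T⟩, fun T l => rfl⟩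
  -- coordinates
  have hc : ∀ l : L, ∃ c : VS →L[ℂ] H, ∀ v : VS, c v = (v : lp (fun _ : L => H) ⊤) l := by
    intro l
    let f : VS →ₗ[ℂ] H :=
      { toFun := fun v => (v : lp (fun _ : L => H) ⊤) l
        map_add' := by
          intro v w
          show ((v : lp (fun _ : L => H) ⊤) + (w : lp (fun _ : L => H) ⊤)) l = _
          rw [lp.coeFn_add, Pi.add_apply]
        map_smul' := by
          intro t v
          show (t • (v : lp (fun _ : L => H) ⊤)) l = _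
          rw [lp.coeFn_smul, Pi.smul_apply]
          rfl }
    refine ⟨f.mkContinuous 1 (fun v => ?_), fun v => rfl⟩
    rw [one_mul]
    exact lp.norm_apply_le_norm (by norm_num : (⊤ : ENNReal) ≠ 0) (v : lp (fun _ : L => H) ⊤) l
  choose c hc using hc
  refine ⟨lp (fun _ : L => K) ⊤, inferInstance, inferInstance, inferInstance,
    VS, inferInstance, inferInstance, hcomp, αM, αV, D, zT, c, ?_, ?_, ?_, ?_, ?_, ?_, ?_, ?_, ?_,
    ?_, ?_⟩
  · intro a b x
    apply lp.ext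
    funext l
    rw [hαM, hαM, hαM, hπ]
  · intro a b x
    apply Subtype.ext
    apply lp.ext
    funext l
    rw [hαVl, hαVl, hαVl, hρ]
  · intro a b x
    apply Subtype.ext
    apply lp.ext
    funext l
    rw [hDl, Submodule.coe_add, lp.coeFn_add, Pi.add_apply, hαVl, hDl, hDl, hαM, hρ, hπ, map_sub]
    abel
  · intro T T' hTT
    apply lp.ext
    funext l
    rw [lp.coeFn_add, Pi.add_apply, hzT, hzT, hzT]
    by_cases h1 : l ∈ T
    · have h2 : l ∉ T' := fun h => Set.disjoint_left.mp hTT h1 h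
      simp [h1, h2]
    · by_cases h2 : l ∈ T'
      · simp [h1, h2]
      · simp [h1, h2]
  · intro T
    apply lp.norm_le_of_forall_le zero_le_one
    intro l
    rw [hzT]
    split_ifs
    · exact hz l
    · rw [norm_zero]; exact zero_le_one
  · intro s e he
    apply lp.norm_le_of_forall_le zero_le_one
    intro m
    have h1 : (∑ l ∈ s, e l • zT {l}) m = if m ∈ s then e m • z m else 0 := by
      rw [lp.coeFn_sum, Finset.sum_apply]
      have h2 : ∀ l ∈ s, (e l • zT {l}) m = if m = l then e m • z m else 0 := by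
        intro l _
        rw [lp.coeFn_smul, Pi.smul_apply, hzT]
        by_cases hml : m = l
        · subst hml; simp
        · simp [hml]
      rw [Finset.sum_congr rfl h2, Finset.sum_ite_eq]
    rw [h1]
    split_ifs with hm
    · rw [norm_smul]
      calc ‖e m‖ * ‖z m‖ ≤ 1 * 1 := mul_le_mul (he m hm) (hz m) (norm_nonneg _) zero_le_one
        _ = 1 := one_mul 1
    · rw [norm_zero]; exact zero_le_one
  · intro a l hal
    apply lp.ext
    funext m
    rw [hαM, hzT]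
    by_cases hml : m = l
    · subst hml
      simp [hal]
    · simp [hml]
  · intro l v
    rw [hc]
    exact lp.norm_apply_le_norm (by norm_num : (⊤ : ENNReal) ≠ 0) (v : lp (fun _ : L => H) ⊤) l
  · intro l a v
    rw [hc, hc, hαVl]
  · intro v h
    simp_rw [hc]
    exact v.2 h
  · intro l a
    rw [hc, hDl, hzT]
    simp

end Pool.Agent.Helper133.CD.J9
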