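import Mathlib

set_option autoImplicit false

namespace Pool.Agent.Helper133.CD.J4a

universe u

/-- a self-adjoint element with infinite spectrum gives an orthogonal sequence -/
theorem exists_orth_of_infinite_spectrum (A : Type u) [NonUnitalCStarAlgebra A] (x : A)
    (hx : IsSelfAdjoint x) (hs : (quasispectrum ℝ x).Infinite) :
    ∃ a b : ℕ → A, (∀ n, IsSelfAdjoint (a n)) ∧ (∀ n, ‖a n‖ ≤ 1) ∧ (∀ n, b n ≠ 0) ∧
      (∀ n, a n * b n = b n) ∧ ∀ m n, m ≠ n → a m * a n = 0 := by
  classical
  have hinf : (quasispectrum ℝ x \ {0}).Infinite := hs.sdiff (Set.finite_singleton 0)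
  have : Infinite (quasispectrum ℝ x \ {0} : Set ℝ) := hinf.to_subtype
  obtain ⟨U, hUi, hUo, hUd⟩ :=
    exists_seq_infinite_isOpen_pairwise_disjoint (quasispectrum ℝ x \ {0} : Set ℝ)
  have h1 : ∀ n, ∃ t r : ℝ, t ∈ quasispectrum ℝ x ∧ 0 < r ∧ 2 * r ≤ |t| ∧
      ∀ s ∈ quasispectrum ℝ x, |s - t| < 2 * r → ∃ hs : s ∈ (quasispectrum ℝ x \ {0} : Set ℝ),
        (⟨s, hs⟩ : (quasispectrum ℝ x \ {0} : Set ℝ)) ∈ U n := by
    intro n
    obtain ⟨⟨t, ht⟩, htU⟩ := (hUi n).nonempty
    obtain ⟨V, hV, hVU⟩ := isOpen_induced_iff.1 (hUo n)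
    have htV : t ∈ V := by
      have : (⟨t, ht⟩ : (quasispectrum ℝ x \ {0} : Set ℝ)) ∈ Subtype.val ⁻¹' V := by
        rw [hVU]; exact htU
      exact this
    have ht0 : t ≠ 0 := fun h => ht.2 h
    obtain ⟨ε, hε, hball⟩ := Metric.isOpen_iff.1 hV t htV
    refine ⟨t, min (ε / 2) (|t| / 2), ht.1, ?_, ?_, ?_⟩
    · have := abs_pos.2 ht0
      positivity
    · have := min_le_right (ε / 2) (|t| / 2)
      linarith
    · intro s hs hst
      have h2 : |s - t| < ε := by
        have := min_le_left (ε / 2) (|t| / 2)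
        linarith
      have h3 : |s - t| < |t| := by
        have := min_le_right (ε / 2) (|t| / 2)
        linarith
      have hsV : s ∈ V := hball (by rw [Metric.mem_ball, Real.dist_eq]; exact h2)
      have hs0 : s ≠ 0 := by
        intro h
        rw [h, zero_sub, abs_neg] at h3
        exact lt_irrefl _ h3
      refine ⟨⟨hs, hs0⟩, ?_⟩
      rw [← hVU]
      exact hsV
  choose t r ht hr hrt hU using h1
  let f : ℕ → ℝ → ℝ := fun n s => min 1 (max 0 (2 - |s - t n| / r n))
  let g : ℕ → ℝ → ℝ := fun n s => max 0 (1 - |s - t n| / r n)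
  have hfc : ∀ n, Continuous (f n) := by
    intro n
    simp only [f]
    fun_prop
  have hgc : ∀ n, Continuous (g n) := by
    intro n
    simp only [g]
    fun_prop
  have hf0 : ∀ n, f n 0 = 0 := by
    intro n
    simp only [f]
    have : 2 - |0 - t n| / r n ≤ 0 := by
      rw [zero_sub, abs_neg, sub_nonpos, le_div_iff₀ (hr n)]
      exact hrt n
    rw [max_eq_left this]
    simp
  have hg0 : ∀ n, g n 0 = 0 := by
    intro n
    simp only [g]
    have : 1 - |0 - t n| / r n ≤ 0 := by
      rw [zero_sub, abs_neg, sub_nonpos, le_div_iff₀ (hr n)]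
      have := hrt n
      have := hr n
      linarith
    rw [max_eq_left this]
  have hfn : ∀ n s, f n s ≠ 0 → |s - t n| < 2 * r n := by
    intro n s hne
    by_contra hcon
    push Not at hcon
    apply hne
    simp only [f]
    have : 2 - |s - t n| / r n ≤ 0 := by
      rw [sub_nonpos, le_div_iff₀ (hr n)]
      exact hcon
    rw [max_eq_left this]
    simp
  have hfg : ∀ n s, f n s * g n s = g n s := by
    intro n s
    by_cases h : |s - t n| / r n ≤ 1
    · have : f n s = 1 := by
        simp only [f]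
        rw [max_eq_right (by linarith), min_eq_left (by linarith)]
      rw [this, one_mul]
    · have : g n s = 0 := by
        simp only [g]
        rw [max_eq_left (by linarith)]
      rw [this, mul_zero]
  refine ⟨fun n => cfcₙ (f n) x, fun n => cfcₙ (g n) x, ?_, ?_, ?_, ?_, ?_⟩
  · intro n
    exact cfcₙ_predicate (f n) x
  · intro n
    apply norm_cfcₙ_le
    intro s _
    rw [Real.norm_eq_abs, abs_le]
    simp only [f]
    constructor
    · have : (0:ℝ) ≤ min 1 (max 0 (2 - |s - t n| / r n)) := le_min zero_le_one (le_max_left _ _)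
      linarith
    · exact min_le_left _ _
  · intro n hb
    have h1 := norm_apply_le_norm_cfcₙ (g n) x (ht n) (hgc n).continuousOn (hg0 n) hx
    have hb' : cfcₙ (g n) x = 0 := hb
    rw [hb', norm_zero] at h1
    have h2 : g n (t n) = 1 := by
      simp [g]
    rw [h2, norm_one] at h1
    linarith
  · intro n
    simp only
    rw [← cfcₙ_mul (f n) (g n) x (hfc n).continuousOn (hf0 n) (hgc n).continuousOn (hg0 n)]
    apply cfcₙ_congr
    intro s _
    exact hfg n s
  · intro m n hmn
    simp only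
    rw [← cfcₙ_mul (f m) (f n) x (hfc m).continuousOn (hf0 m) (hfc n).continuousOn (hf0 n)]
    have : (quasispectrum ℝ x).EqOn (fun s => f m s * f n s) (fun _ => 0) := by
      intro s hs
      show f m s * f n s = 0
      by_contra hne
      have h1 : f m s ≠ 0 := left_ne_zero_of_mul hne
      have h2 : f n s ≠ 0 := right_ne_zero_of_mul hne
      obtain ⟨hs1, hu1⟩ := hU m s hs (hfn m s h1)
      obtain ⟨hs2, hu2⟩ := hU n s hs (hfn n s h2)
      exact Set.disjoint_left.1 (hUd hmn) hu1 hu2
    rw [cfcₙ_congr this]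
    exact cfcₙ_const_zero ℝ x

end Pool.Agent.Helper133.CD.J4a
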