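import Mathlib

set_option autoImplicit false

namespace Pool.Agent.Helper133.CD.J4b

universe u

/-- a self-adjoint element with finite spectrum is a combination of its spectral projections -/
theorem mem_span_of_finite_spectrum (A : Type u) [NonUnitalCStarAlgebra A] (x : A)
    (hx : IsSelfAdjoint x) (hs : (quasispectrum ℝ x).Finite) :
    x ∈ Submodule.span ℂ {q : A | IsSelfAdjoint q ∧ q * q = q ∧ ∃ y, q = x * y ∧ q = y * x} := by
  classical
  have hcont : ∀ f : ℝ → ℝ, ContinuousOn f (quasispectrum ℝ x) := fun f => hs.continuousOn f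
  let e : ℝ → ℝ → ℝ := fun l t => if t = l then 1 else 0
  have he0 : ∀ l : ℝ, l ≠ 0 → e l 0 = 0 := by
    intro l hl
    exact if_neg hl.symm
  have hq : ∀ l : ℝ, l ≠ 0 → cfcₙ (e l) x ∈
      {q : A | IsSelfAdjoint q ∧ q * q = q ∧ ∃ y, q = x * y ∧ q = y * x} := by
    intro l hl
    have hy0 : (fun t => l⁻¹ * e l t) 0 = 0 := by
      show l⁻¹ * e l 0 = 0
      rw [he0 l hl, mul_zero]
    have h1 : cfcₙ (e l) x = cfcₙ (fun t : ℝ => t) x * cfcₙ (fun t => l⁻¹ * e l t) x := by
      rw [← cfcₙ_mul (fun t : ℝ => t) (fun t => l⁻¹ * e l t) x (hcont _) rfl (hcont _) hy0]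
      congr 1
      funext t
      simp only [e]
      split_ifs with h
      · rw [h]; field_simp
      · simp
    have h2 : cfcₙ (e l) x = cfcₙ (fun t => l⁻¹ * e l t) x * cfcₙ (fun t : ℝ => t) x := by
      rw [← cfcₙ_mul (fun t => l⁻¹ * e l t) (fun t : ℝ => t) x (hcont _) hy0 (hcont _) rfl]
      congr 1
      funext t
      simp only [e]
      split_ifs with h
      · rw [h]; field_simp
      · simp
    rw [cfcₙ_id' ℝ x hx] at h1 h2
    refine ⟨cfcₙ_predicate (e l) x, ?_, cfcₙ (fun t => l⁻¹ * e l t) x, h1, h2⟩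
    rw [← cfcₙ_mul (e l) (e l) x (hcont _) (he0 l hl) (hcont _) (he0 l hl)]
    congr 1
    funext t
    simp only [e]
    split_ifs <;> simp
  have hsum : x = ∑ l ∈ hs.toFinset.erase 0, (l : ℂ) • cfcₙ (e l) x := by
    conv_lhs => rw [← cfcₙ_id' ℝ x hx]
    have h1 : cfcₙ (fun t : ℝ => t) x =
        cfcₙ (∑ l ∈ hs.toFinset.erase 0, fun t => l * e l t) x := by
      refine cfcₙ_congr fun t ht => ?_
      rw [Finset.sum_apply]
      simp only [e, mul_ite, mul_one, mul_zero]
      rw [Finset.sum_ite_eq]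
      split_ifs with h
      · rfl
      · by_contra hne
        apply h
        rw [Finset.mem_erase, Set.Finite.mem_toFinset]
        exact ⟨fun h0 => hne h0, ht⟩
    rw [h1, cfcₙ_sum (fun l t => l * e l t) x _ (fun i _ => hcont _) (fun i hi => by
      show i * e i 0 = 0
      rw [he0 i (Finset.ne_of_mem_erase hi), mul_zero])]
    refine Finset.sum_congr rfl fun l hl => ?_
    rw [cfcₙ_const_mul l (e l) x (hcont _) (he0 l (Finset.ne_of_mem_erase hl)), Complex.coe_smul]
  rw [hsum]
  refine Submodule.sum_mem _ fun l hl => ?_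
  refine Submodule.smul_mem _ _ (Submodule.subset_span ?_)
  have := hq l (Finset.ne_of_mem_erase hl)
  rw [← hsum]
  exact this

end Pool.Agent.Helper133.CD.J4b
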