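import Mathlib

set_option autoImplicit false

namespace Pool.Agent.Helper133.CD.J4c

universe u

/-- if all self-adjoint elements are combinations of projections and there is no infinite sequence
of pairwise orthogonal nonzero projections then the algebra is finite dimensional -/
theorem finiteDimensional_of_no_orth (A : Type u) [NonUnitalCStarAlgebra A]
    (h1 : ∀ x : A, IsSelfAdjoint x →
      x ∈ Submodule.span ℂ {q : A | IsSelfAdjoint q ∧ q * q = q ∧ ∃ y, q = x * y ∧ q = y * x})
    (h2 : ¬ ∃ p : ℕ → A, (∀ n, IsSelfAdjoint (p n)) ∧ (∀ n, p n * p n = p n) ∧ (∀ n, p n ≠ 0) ∧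
      ∀ m n, m ≠ n → p m * p n = 0) :
    FiniteDimensional ℂ A := by
  classical
  -- (0)
  have s0 : ∀ x : A, IsSelfAdjoint x → x ≠ 0 →
      ∃ q : A, IsSelfAdjoint q ∧ q * q = q ∧ q ≠ 0 ∧ ∃ y, q = x * y ∧ q = y * x := by
    intro x hx hx0
    by_contra hcon
    push Not at hcon
    apply hx0
    have hsub : {q : A | IsSelfAdjoint q ∧ q * q = q ∧ ∃ y, q = x * y ∧ q = y * x} ⊆ {0} := by
      rintro q ⟨ha, hb, y, hy1, hy2⟩
      by_contra hq
      exact hcon q ha hb hq y hy1 hy2
    have := Submodule.span_mono (R := ℂ) hsub (h1 x hx)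
    simpa using this
  -- minimal projections
  obtain ⟨Mn, hMn⟩ : ∃ Mn : A → Prop, ∀ q, Mn q ↔ (IsSelfAdjoint q ∧ q * q = q ∧ q ≠ 0 ∧
      ∀ e : A, IsSelfAdjoint e → e * e = e → e * q = e → e = 0 ∨ e = q) := ⟨_, fun _ => Iff.rfl⟩
  have hstar : ∀ e q : A, IsSelfAdjoint e → IsSelfAdjoint q → e * q = e → q * e = e := by
    intro e q he hq h
    have := congrArg star h
    rwa [star_mul, he.star_eq, hq.star_eq] at this
  have hstar0 : ∀ e q : A, IsSelfAdjoint e → IsSelfAdjoint q → e * q = 0 → q * e = 0 := by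
    intro e q he hq h
    have := congrArg star h
    rwa [star_mul, he.star_eq, hq.star_eq, star_zero] at this
  have s1 : ∀ p : A, IsSelfAdjoint p → p * p = p → p ≠ 0 → ∃ q, Mn q ∧ q * p = q := by
    intro p hp hpp hp0
    by_contra hcon
    push Not at hcon
    -- a decreasing sequence
    have hnext : ∀ e : {e : A // IsSelfAdjoint e ∧ e * e = e ∧ e ≠ 0 ∧ e * p = e},
        ∃ e' : {e : A // IsSelfAdjoint e ∧ e * e = e ∧ e ≠ 0 ∧ e * p = e},
          e'.1 * e.1 = e'.1 ∧ e'.1 ≠ e.1 := by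
      rintro ⟨e, he1, he2, he3, he4⟩
      have : ¬ Mn e := fun h => hcon e h he4
      rw [hMn] at this
      push Not at this
      obtain ⟨e', g1, g2, g3, g4, g5⟩ := this he1 he2 he3
      refine ⟨⟨e', g1, g2, g4, ?_⟩, g3, g5⟩
      rw [← g3, mul_assoc, he4]
    choose nx hnx1 hnx2 using hnext
    obtain ⟨E, hE0, hE⟩ : ∃ E : ℕ → {e : A // IsSelfAdjoint e ∧ e * e = e ∧ e ≠ 0 ∧ e * p = e},
        E 0 = ⟨p, hp, hpp, hp0, hpp⟩ ∧ ∀ n, E (n + 1) = nx (E n) :=
      ⟨fun n => Nat.rec ⟨p, hp, hpp, hp0, hpp⟩ (fun _ e => nx e) n, rfl, fun _ => rfl⟩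
    have hdec : ∀ n, (E (n + 1)).1 * (E n).1 = (E (n + 1)).1 := fun n => by
      rw [hE]; exact hnx1 _
    have hne : ∀ n, (E (n + 1)).1 ≠ (E n).1 := fun n => by
      rw [hE]; exact hnx2 _
    have hchain : ∀ m k, (E (m + k)).1 * (E m).1 = (E (m + k)).1 := by
      intro m k
      induction k with
      | zero => exact (E m).2.2.1
      | succ k ih =>
        have h := hdec (m + k)
        have e1 : m + (k + 1) = m + k + 1 := rfl
        rw [e1]
        calc (E (m + k + 1)).1 * (E m).1 = (E (m + k + 1)).1 * (E (m + k)).1 * (E m).1 := by rw [h]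
          _ = (E (m + k + 1)).1 * (E (m + k)).1 := by rw [mul_assoc, ih]
          _ = _ := h
    have hchain' : ∀ m k, (E m).1 * (E (m + k)).1 = (E (m + k)).1 := fun m k =>
      hstar _ _ (E (m + k)).2.1 (E m).2.1 (hchain m k)
    have hlt : ∀ m n, m < n → ((E m).1 - (E (m + 1)).1) * ((E n).1 - (E (n + 1)).1) = 0 := by
      intro m n hmn
      obtain ⟨k, rfl⟩ := Nat.exists_eq_add_of_lt hmn
      have a1 : (E m).1 * (E (m + k + 1)).1 = (E (m + k + 1)).1 := hchain' m (k + 1)
      have a2 : (E m).1 * (E (m + k + 1 + 1)).1 = (E (m + k + 1 + 1)).1 := hchain' m (k + 1 + 1)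
      have a3 : (E (m + 1)).1 * (E (m + k + 1)).1 = (E (m + k + 1)).1 := by
        have := hchain' (m + 1) k
        rwa [show m + 1 + k = m + k + 1 by ring] at this
      have a4 : (E (m + 1)).1 * (E (m + k + 1 + 1)).1 = (E (m + k + 1 + 1)).1 := by
        have := hchain' (m + 1) (k + 1)
        rwa [show m + 1 + (k + 1) = m + k + 1 + 1 by ring] at this
      rw [sub_mul, mul_sub, mul_sub, a1, a2, a3, a4, sub_self]
    have hsa : ∀ n, IsSelfAdjoint ((E n).1 - (E (n + 1)).1) := fun n =>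
      (E n).2.1.sub (E (n + 1)).2.1
    refine h2 ⟨fun n => (E n).1 - (E (n + 1)).1, hsa, ?_, ?_, ?_⟩
    · intro n
      show ((E n).1 - (E (n + 1)).1) * ((E n).1 - (E (n + 1)).1) = (E n).1 - (E (n + 1)).1
      rw [sub_mul, mul_sub, mul_sub, (E n).2.2.1, hchain' n 1, hdec n, (E (n + 1)).2.2.1]
      simp
    · intro n h
      exact hne n (sub_eq_zero.mp h).symm
    · intro m n hmn
      rcases lt_or_gt_of_ne hmn with h | h
      · exact hlt m n h
      · exact hstar0 _ _ (hsa n) (hsa m) (hlt n m h)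
  -- (2) maximal orthogonal family
  obtain ⟨M, hM⟩ : ∃ M, Maximal (· ∈ {M : Set A | (∀ q ∈ M, Mn q) ∧
      ∀ q ∈ M, ∀ r ∈ M, q ≠ r → q * r = 0}) M := by
    refine zorn_subset _ (fun c hc hchain => ?_)
    refine ⟨⋃₀ c, ⟨?_, ?_⟩, fun s hs => Set.subset_sUnion_of_mem hs⟩
    · rintro q ⟨s, hs, hq⟩
      exact (hc hs).1 q hq
    · rintro q ⟨s, hs, hq⟩ r ⟨t, ht, hr⟩ hqr
      rcases hchain.total hs ht with h | h
      · exact (hc ht).2 q (h hq) r hr hqr
      · exact (hc hs).2 q hq r (h hr) hqr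
  have hMfin : M.Finite := by
    by_contra hinf
    have hinf' : M.Infinite := hinf
    obtain ⟨g⟩ : Nonempty (ℕ ↪ M) := ⟨hinf'.natEmbedding⟩
    have hg : ∀ n, Mn (g n).1 := fun n => hM.prop.1 _ (g n).2
    refine h2 ⟨fun n => (g n).1, fun n => ((hMn _).mp (hg n)).1, fun n => ((hMn _).mp (hg n)).2.1,
      fun n => ((hMn _).mp (hg n)).2.2.1, fun m n hmn => ?_⟩
    exact hM.prop.2 _ (g m).2 _ (g n).2 (fun h => hmn (g.injective (Subtype.ext h)))
  obtain ⟨F, hF⟩ : ∃ F : Finset A, F = hMfin.toFinset := ⟨_, rfl⟩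
  have hFmem : ∀ x, x ∈ F ↔ x ∈ M := fun x => by rw [hF]; simp
  have hFmin : ∀ x ∈ F, Mn x := fun x hx => hM.prop.1 x ((hFmem x).mp hx)
  have hForth : ∀ x ∈ F, ∀ y ∈ F, x ≠ y → x * y = 0 := fun x hx y hy h =>
    hM.prop.2 x ((hFmem x).mp hx) y ((hFmem y).mp hy) h
  obtain ⟨p, hp⟩ : ∃ p : A, p = ∑ f ∈ F, f := ⟨_, rfl⟩
  have hpf : ∀ f ∈ F, p * f = f := by
    intro f hf
    rw [hp, Finset.sum_mul, Finset.sum_eq_single f]
    · exact ((hMn f).mp (hFmin f hf)).2.1
    · intro g hg hgf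
      exact hForth g hg f hf hgf
    · intro h; exact absurd hf h
  have hpsa : IsSelfAdjoint p := by
    rw [hp]
    unfold IsSelfAdjoint
    rw [star_sum]
    exact Finset.sum_congr rfl (fun f hf => ((hMn f).mp (hFmin f hf)).1.star_eq)
  have hpp : p * p = p := by
    conv_lhs => rw [hp, ← hp]
    have : p * ∑ f ∈ F, f = ∑ f ∈ F, f := by
      rw [Finset.mul_sum]
      exact Finset.sum_congr rfl hpf
    rw [← hp] at this
    exact this
  have hap : ∀ a : A, a * p = a := by
    intro a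
    by_contra hcon
    have hne : a - a * p ≠ 0 := fun h => hcon (sub_eq_zero.mp h).symm
    have hx0 : star (a - a * p) * (a - a * p) ≠ 0 := fun h =>
      hne ((CStarRing.star_mul_self_eq_zero_iff _).mp h)
    have hxsa : IsSelfAdjoint (star (a - a * p) * (a - a * p)) := IsSelfAdjoint.star_mul_self _
    have hxp : star (a - a * p) * (a - a * p) * p = 0 := by
      rw [mul_assoc, sub_mul, mul_assoc, hpp, sub_self, mul_zero]
    obtain ⟨q, hq1, hq2, hq3, y, hy1, hy2⟩ := s0 _ hxsa hx0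
    have hqf : ∀ f ∈ F, q * f = 0 := by
      intro f hf
      rw [hy2, mul_assoc, ← hpf f hf, ← mul_assoc (star (a - a * p) * (a - a * p)), hxp,
        zero_mul, mul_zero]
    obtain ⟨r, hr1, hr2⟩ := s1 q hq1 hq2 hq3
    have hrf : ∀ f ∈ F, r * f = 0 := by
      intro f hf
      rw [← hr2, mul_assoc, hqf f hf, mul_zero]
    have hrsa := ((hMn r).mp hr1).1
    have hrM : r ∉ M := by
      intro h
      have h' := hrf r ((hFmem r).mpr h)
      rw [((hMn r).mp hr1).2.1] at h'
      exact ((hMn r).mp hr1).2.2.1 h'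
    have hbig : insert r M ∈ {M : Set A | (∀ q ∈ M, Mn q) ∧
        ∀ q ∈ M, ∀ r ∈ M, q ≠ r → q * r = 0} := by
      refine ⟨?_, ?_⟩
      · rintro x (rfl | hx)
        · exact hr1
        · exact hM.prop.1 x hx
      · rintro x (rfl | hx) z (rfl | hz) hxz
        · exact absurd rfl hxz
        · exact hrf z ((hFmem z).mpr hz)
        · exact hstar0 _ _ hrsa ((hMn x).mp (hM.prop.1 x hx)).1 (hrf x ((hFmem x).mpr hx))
        · exact hM.prop.2 x hx z hz hxz
    exact hrM (hM.le_of_ge hbig (Set.subset_insert r M) (Set.mem_insert r M))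
  have hpa : ∀ a : A, p * a = a := by
    intro a
    have := congrArg star (hap (star a))
    rwa [star_mul, star_star, hpsa.star_eq] at this
  -- (4)
  have s4sa : ∀ q, Mn q → ∀ x, IsSelfAdjoint x → q * x * q = x → x ∈ Submodule.span ℂ {q} := by
    intro q hq x hx hqx
    obtain ⟨hq1, hq2, hq3, hq4⟩ := (hMn q).mp hq
    have hqx1 : q * x = x := by
      conv_lhs => rw [← hqx]
      rw [← mul_assoc, ← mul_assoc, hq2, hqx]
    have hqx2 : x * q = x := by
      conv_lhs => rw [← hqx]
      rw [mul_assoc, hq2, hqx]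
    have hsub : {e : A | IsSelfAdjoint e ∧ e * e = e ∧ ∃ y, e = x * y ∧ e = y * x} ⊆
        (Submodule.span ℂ {q} : Set A) := by
      rintro e ⟨he1, he2, y, hy1, hy2⟩
      have heq : e * q = e := by
        rw [hy2, mul_assoc, hqx2]
      rcases hq4 e he1 he2 heq with h | h
      · rw [h]; exact Submodule.zero_mem _
      · rw [h]; exact Submodule.mem_span_singleton_self q
    exact Submodule.span_le.mpr hsub (h1 x hx)
  have s4 : ∀ q, Mn q → ∀ x, q * x * q = x → ∃ c : ℂ, x = c • q := by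
    intro q hq x hqx
    have hq1 := ((hMn q).mp hq).1
    have hst : q * star x * q = star x := by
      have := congrArg star hqx
      rwa [star_mul, star_mul, hq1.star_eq, ← mul_assoc] at this
    have a1 : x + star x ∈ Submodule.span ℂ {q} := by
      refine s4sa q hq _ ?_ ?_
      · unfold IsSelfAdjoint
        rw [star_add, star_star, add_comm]
      · rw [mul_add, add_mul, hqx, hst]
    have a2 : Complex.I • (x - star x) ∈ Submodule.span ℂ {q} := by
      refine s4sa q hq _ ?_ ?_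
      · unfold IsSelfAdjoint
        rw [star_smul, star_sub, star_star, Complex.star_def, Complex.conj_I, neg_smul, ← smul_neg,
          neg_sub]
      · rw [mul_smul_comm, smul_mul_assoc, mul_sub, sub_mul, hqx, hst]
    have a3 : x = (1 / 2 : ℂ) • (x + star x) + (-Complex.I / 2) • (Complex.I • (x - star x)) := by
      rw [smul_smul]
      have : -Complex.I / 2 * Complex.I = 1 / 2 := by
        rw [neg_div, neg_mul, div_mul_eq_mul_div, Complex.I_mul_I]
        norm_num
      rw [this, ← smul_add]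
      have : x + star x + (x - star x) = (2 : ℂ) • x := by
        rw [two_smul]; abel
      rw [this, smul_smul]
      norm_num
    have a4 : x ∈ Submodule.span ℂ {q} := by
      rw [a3]
      exact Submodule.add_mem _ (Submodule.smul_mem _ _ a1) (Submodule.smul_mem _ _ a2)
    obtain ⟨c, hc⟩ := Submodule.mem_span_singleton.mp a4
    exact ⟨c, hc.symm⟩
  -- (5)
  have s5 : ∀ e f, Mn e → Mn f → ∃ y : A, ∀ a : A, e * a * f ∈ Submodule.span ℂ {y} := by
    intro e f he hf
    obtain ⟨he1, he2, he3, he4⟩ := (hMn e).mp he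
    obtain ⟨hf1, hf2, hf3, hf4⟩ := (hMn f).mp hf
    by_cases hall : ∀ a : A, e * a * f = 0
    · exact ⟨0, fun a => by rw [hall a]; exact Submodule.zero_mem _⟩
    push Not at hall
    obtain ⟨b, hb⟩ := hall
    obtain ⟨y, hy⟩ : ∃ y, y = e * b * f := ⟨_, rfl⟩
    rw [← hy] at hb
    have hey : e * y = y := by rw [hy, ← mul_assoc, ← mul_assoc, he2]
    have hyf : y * f = y := by rw [hy, mul_assoc, hf2]
    have hys : star y * e = star y := by
      have := congrArg star hey
      rwa [star_mul, he1.star_eq] at this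
    have hfy : f * star y = star y := by
      have := congrArg star hyf
      rwa [star_mul, hf1.star_eq] at this
    obtain ⟨c, hc⟩ := s4 e he (y * star y) (by rw [← mul_assoc, hey, mul_assoc, hys])
    have hc0 : c ≠ 0 := by
      rintro rfl
      rw [zero_smul] at hc
      exact hb ((CStarRing.mul_star_self_eq_zero_iff _).mp hc)
    refine ⟨y, fun a => ?_⟩
    obtain ⟨μ, hμ⟩ := s4 f hf (star y * (e * a * f)) (by
      rw [← mul_assoc, hfy, mul_assoc, mul_assoc, hf2])
    rw [Submodule.mem_span_singleton]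
    refine ⟨c⁻¹ * μ, ?_⟩
    have h3 : c • (e * a * f) = μ • y := by
      calc c • (e * a * f) = (c • e) * (a * f) := by rw [smul_mul_assoc, mul_assoc]
        _ = y * (star y * (a * f)) := by rw [← hc, mul_assoc]
        _ = y * (star y * (e * a * f)) := by
            rw [← mul_assoc (star y) (e * a), ← mul_assoc (star y) e, hys, mul_assoc (star y)]
        _ = y * (μ • f) := by rw [hμ]
        _ = μ • y := by rw [mul_smul_comm, hyf]
    rw [mul_smul, ← h3, smul_smul, inv_mul_cancel₀ hc0, one_smul]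
  -- (6)
  have hchoice : ∃ Y : A → A → A, ∀ e ∈ F, ∀ f ∈ F, ∀ a : A,
      e * a * f ∈ Submodule.span ℂ {Y e f} := by
    have : ∀ e f : A, ∃ y : A, e ∈ F → f ∈ F → ∀ a : A, e * a * f ∈ Submodule.span ℂ {y} := by
      intro e f
      by_cases he : e ∈ F
      · by_cases hf : f ∈ F
        · obtain ⟨y, hy⟩ := s5 e f (hFmin e he) (hFmin f hf)
          exact ⟨y, fun _ _ => hy⟩
        · exact ⟨0, fun _ h => absurd h hf⟩
      · exact ⟨0, fun h => absurd h he⟩
    choose Y hY using this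
    exact ⟨Y, fun e he f hf => hY e f he hf⟩
  obtain ⟨Y, hY⟩ := hchoice
  refine Module.finite_def.mpr (Submodule.fg_def.mpr
    ⟨((F ×ˢ F).image (fun z : A × A => Y z.1 z.2) : Finset A), Finset.finite_toSet _, ?_⟩)
  rw [eq_top_iff]
  rintro a -
  have ha : a = ∑ e ∈ F, ∑ f ∈ F, e * a * f := by
    have h3 : a = p * a * p := by rw [hpa, hap]
    conv_lhs => rw [h3]
    rw [hp, Finset.sum_mul, Finset.sum_mul]
    refine Finset.sum_congr rfl (fun e _ => ?_)
    rw [Finset.mul_sum]
  rw [ha]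
  refine Submodule.sum_mem _ (fun e he => Submodule.sum_mem _ (fun f hf => ?_))
  refine Submodule.span_mono ?_ (hY e he f hf a)
  rw [Set.singleton_subset_iff]
  exact Finset.mem_coe.mpr (Finset.mem_image.mpr ⟨(e, f), Finset.mem_product.mpr ⟨he, hf⟩, rfl⟩)

end Pool.Agent.Helper133.CD.J4c
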