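import Mathlib

set_option autoImplicit false

namespace Pool.Agent.Helper133.CD.J5

universe u

theorem aux_orth_mul (A : Type u) [NonUnitalCStarAlgebra A] (a : ℕ → A)
    (ho : ∀ m n, m ≠ n → a m * a n = 0)
    (s : Finset ℕ) (c c' : ℕ → ℂ) :
    (∑ m ∈ s, c m • a m) * (∑ n ∈ s, c' n • a n) = ∑ n ∈ s, (c n * c' n) • (a n * a n) := by
  rw [Finset.sum_mul_sum]
  refine Finset.sum_congr rfl ?_
  intro m hm
  rw [Finset.sum_eq_single m]
  · rw [smul_mul_smul_comm]
  · intro n _ hnm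
    rw [smul_mul_smul_comm, ho m n (Ne.symm hnm), smul_zero]
  · intro h
    exact absurd hm h

theorem aux_real_pow (A : Type u) [NonUnitalCStarAlgebra A] (s : Finset ℕ) (j : ℕ) :
    ∀ (a : ℕ → A) (d : ℕ → ℝ), (∀ n, IsSelfAdjoint (a n)) → (∀ n, ‖a n‖ ≤ 1) →
      (∀ m n, m ≠ n → a m * a n = 0) → (∀ n ∈ s, |d n| ≤ 1) →
      ‖∑ n ∈ s, (d n : ℂ) • a n‖ ^ (2 ^ j) ≤ s.card := by
  induction j with
  | zero =>
    intro a d hs hn ho hd
    rw [pow_zero, pow_one]
    refine (norm_sum_le _ _).trans ?_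
    have : ∑ n ∈ s, ‖(d n : ℂ) • a n‖ ≤ ∑ _n ∈ s, (1 : ℝ) := by
      refine Finset.sum_le_sum ?_
      intro n hns
      rw [norm_smul, Complex.norm_real, Real.norm_eq_abs]
      exact mul_le_one₀ (hd n hns) (norm_nonneg _) (hn n)
    refine this.trans ?_
    simp
  | succ j ih =>
    intro a d hs hn ho hd
    set x := ∑ n ∈ s, (d n : ℂ) • a n with hx
    have hsx : star x = x := by
      rw [hx, star_sum]
      refine Finset.sum_congr rfl ?_
      intro n _
      rw [star_smul, (hs n).star_eq]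
      simp
    have h1 : ‖x * x‖ = ‖x‖ * ‖x‖ := by
      have := CStarRing.norm_star_mul_self (x := x)
      rwa [hsx] at this
    have h2 : x * x = ∑ n ∈ s, ((d n ^ 2 : ℝ) : ℂ) • (a n * a n) := by
      rw [hx, aux_orth_mul A a ho s]
      refine Finset.sum_congr rfl ?_
      intro n _
      push_cast
      rw [sq]
    have h3 := ih (fun n => a n * a n) (fun n => d n ^ 2) ?_ ?_ ?_ ?_
    · rw [← h2, h1] at h3
      have h5 : ‖x‖ ^ (2 ^ (j+1)) = (‖x‖ * ‖x‖) ^ (2 ^ j) := by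
        rw [← sq, ← pow_mul, pow_succ, mul_comm (2 ^ j) 2]
      rw [h5]
      exact h3
    · intro n
      show star (a n * a n) = a n * a n
      rw [star_mul, (hs n).star_eq]
    · intro n
      exact (norm_mul_le _ _).trans (mul_le_one₀ (hn n) (norm_nonneg _) (hn n))
    · intro m n hmn
      show a m * a m * (a n * a n) = 0
      rw [mul_assoc, ← mul_assoc (a m) (a n) (a n), ho m n hmn, zero_mul, mul_zero]
    · intro n hns
      have := hd n hns
      rw [abs_pow]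
      exact pow_le_one₀ (abs_nonneg _) this

theorem aux_real (A : Type u) [NonUnitalCStarAlgebra A] (s : Finset ℕ)
    (a : ℕ → A) (d : ℕ → ℝ) (hs : ∀ n, IsSelfAdjoint (a n)) (hn : ∀ n, ‖a n‖ ≤ 1)
    (ho : ∀ m n, m ≠ n → a m * a n = 0) (hd : ∀ n ∈ s, |d n| ≤ 1) :
    ‖∑ n ∈ s, (d n : ℂ) • a n‖ ≤ 1 := by
  by_contra hlt
  push Not at hlt
  obtain ⟨n, hN⟩ := pow_unbounded_of_one_lt (s.card : ℝ) hlt
  have h1 := aux_real_pow A s n a d hs hn ho hd
  have h2 : n ≤ 2 ^ n := Nat.lt_two_pow_self.le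
  have h3 := pow_le_pow_right₀ hlt.le h2
  linarith

/-- norm of a combination of orthogonal self-adjoint elements -/
theorem norm_orth_sum_le (A : Type u) [NonUnitalCStarAlgebra A] (a : ℕ → A)
    (hs : ∀ n, IsSelfAdjoint (a n)) (hn : ∀ n, ‖a n‖ ≤ 1) (ho : ∀ m n, m ≠ n → a m * a n = 0)
    (s : Finset ℕ) (c : ℕ → ℂ) (hc : ∀ n ∈ s, ‖c n‖ ≤ 1) : ‖∑ n ∈ s, c n • a n‖ ≤ 1 := by
  set x := ∑ n ∈ s, c n • a n with hx
  have hsx : star x = ∑ n ∈ s, (starRingEnd ℂ (c n)) • a n := by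
    rw [hx, star_sum]
    refine Finset.sum_congr rfl ?_
    intro n _
    rw [star_smul, (hs n).star_eq]
    rfl
  have h1 := CStarRing.norm_star_mul_self (x := x)
  have h2 : star x * x = ∑ n ∈ s, ((‖c n‖ ^ 2 : ℝ) : ℂ) • (a n * a n) := by
    rw [hsx, hx, aux_orth_mul A a ho s]
    refine Finset.sum_congr rfl ?_
    intro n _
    congr 1
    rw [mul_comm, Complex.mul_conj, Complex.normSq_eq_norm_sq]
  have h3 := aux_real A s (fun n => a n * a n) (fun n => ‖c n‖ ^ 2) ?_ ?_ ?_ ?_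
  · rw [← h2, h1] at h3
    have h4 : 0 ≤ ‖x‖ := norm_nonneg x
    nlinarith
  · intro n
    show star (a n * a n) = a n * a n
    rw [star_mul, (hs n).star_eq]
  · intro n
    exact (norm_mul_le _ _).trans (mul_le_one₀ (hn n) (norm_nonneg _) (hn n))
  · intro m n hmn
    show a m * a m * (a n * a n) = 0
    rw [mul_assoc, ← mul_assoc (a m) (a n) (a n), ho m n hmn, zero_mul, mul_zero]
  · intro n hns
    rw [abs_of_nonneg (by positivity)]
    exact pow_le_one₀ (norm_nonneg _) (hc n hns)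

end Pool.Agent.Helper133.CD.J5
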