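import Mathlib
import Pool.Agent.Helper133.CD.Stmt
import Pool.Agent.Helper133.CD.Base

set_option autoImplicit false

namespace Pool.Agent.Helper133.CD

universe u

/-- the left module with carrier `E` and action `α` -/
noncomputable def mkL {A : Type u} [NonUnitalNormedRing A] [NormedSpace ℂ A] (E : Type u)
    [NormedAddCommGroup E] [NormedSpace ℂ E] [CompleteSpace E] (α : A →L[ℂ] E →L[ℂ] E)
    (h : ∀ a b x, α (a * b) x = α a (α b x)) : LMod A where
  carrier := E
  act a x := α a x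
  bdd := α.isBoundedBilinearMap
  act_mul := h

/-- the extension module `V × M` with the action twisted by the derivation `D` -/
noncomputable def extMod {A : Type u} [NonUnitalNormedRing A] [NormedSpace ℂ A] (M V : Type u)
    [NormedAddCommGroup M] [NormedSpace ℂ M] [CompleteSpace M]
    [NormedAddCommGroup V] [NormedSpace ℂ V] [CompleteSpace V]
    (αM : A →L[ℂ] M →L[ℂ] M) (αV : A →L[ℂ] V →L[ℂ] V)
    (hM : ∀ a b x, αM (a * b) x = αM a (αM b x)) (hV : ∀ a b x, αV (a * b) x = αV a (αV b x))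
    (D : A →L[ℂ] M →L[ℂ] V) (hD : ∀ a b x, D (a * b) x = αV a (D b x) + D a (αM b x)) :
    LMod A where
  carrier := V × M
  act a p := (αV a p.1 + D a p.2, αM a p.2)
  bdd :=
    { add_left := fun a b x => by
        refine Prod.ext ?_ ?_
        · simp only [map_add, add_apply, Prod.fst_add]; abel
        · simp only [map_add, add_apply, Prod.snd_add]
      smul_left := fun c a x => by
        refine Prod.ext ?_ ?_
        · simp only [map_smul, smul_apply, Prod.smul_fst, smul_add]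
        · simp only [map_smul, smul_apply, Prod.smul_snd]
      add_right := fun a x y => by
        refine Prod.ext ?_ ?_
        · simp only [map_add, Prod.fst_add, Prod.snd_add]; abel
        · simp only [map_add, Prod.snd_add]
      smul_right := fun c a x => by
        refine Prod.ext ?_ ?_
        · simp only [map_smul, Prod.smul_fst, Prod.smul_snd, smul_add]
        · simp only [map_smul, Prod.smul_snd]
      bound := by
        refine ⟨‖αV‖ + ‖D‖ + ‖αM‖ + 1, by positivity, ?_⟩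
        intro a x
        have h1 : ‖αV a x.1‖ ≤ ‖αV‖ * ‖a‖ * ‖x‖ :=
          (αV.le_opNorm₂ a x.1).trans (by gcongr; exact norm_fst_le x)
        have h2 : ‖D a x.2‖ ≤ ‖D‖ * ‖a‖ * ‖x‖ :=
          (D.le_opNorm₂ a x.2).trans (by gcongr; exact norm_snd_le x)
        have h3 : ‖αM a x.2‖ ≤ ‖αM‖ * ‖a‖ * ‖x‖ :=
          (αM.le_opNorm₂ a x.2).trans (by gcongr; exact norm_snd_le x)
        have h4 : 0 ≤ ‖a‖ * ‖x‖ := by positivity
        have n1 := norm_nonneg αV
        have n2 := norm_nonneg D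
        have n3 := norm_nonneg αM
        rw [Prod.norm_def, max_le_iff]
        constructor
        · refine (norm_add_le _ _).trans ?_
          nlinarith [mul_nonneg n3 h4]
        · nlinarith [mul_nonneg n1 h4, mul_nonneg n2 h4] }
  act_mul := fun a b x => by
    refine Prod.ext ?_ ?_
    · simp only [hV, hD, map_add]; abel
    · simp only [hM]

theorem lifts_of_dg_le (A : Type u) [NonUnitalNormedRing A] [NormedSpace ℂ A] (h : dg A ≤ 1) :
    Lifts A := by
  intro M V Q _ _ _ _ _ _ _ _ _ αM αV αQ hM hV hQ q s hq hs D hD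
  let X : LMod A := mkL M αM hM
  have hX : X.dh ≤ 1 := (le_iSup (fun X : LMod A => X.dh) X).trans h
  have hres : ∃ n : ℕ, n ≤ 1 ∧ X.HasResolution n := by
    by_contra hcon
    push Not at hcon
    have h2 : (2 : ℕ∞) ≤ X.dh := by
      refine le_iInf₂ fun n hn => ?_
      have h3 : 2 ≤ n := by
        by_contra h4
        exact hcon n (by omega) hn
      exact_mod_cast h3
    have h3 : (2 : ℕ∞) ≤ 1 := h2.trans hX
    exact absurd h3 (by norm_num)
  obtain ⟨n, hn, R, hR⟩ := hres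
  have hsub : Subsingleton (R.P 2).carrier := hR 2 (by omega)
  let E : LMod A := extMod M V αM αV hM hV D hD
  obtain ⟨Φ, hΦ, hΦ2⟩ := R.projective 0 E X (fun p : V × M => p.2) R.ε
    ⟨(ContinuousLinearMap.snd ℂ V M).isBoundedLinearMap, fun a x => rfl⟩
    ⟨fun x : M => ((0 : V), x), (ContinuousLinearMap.inr ℂ V M).isBoundedLinearMap, fun y => rfl⟩
    R.ε_hom
  -- bounded linear maps
  let ΦL : (R.P 0).carrier →L[ℂ] V × M := hΦ.1.toContinuousLinearMap
  let ψ : (R.P 0).carrier →L[ℂ] V := (ContinuousLinearMap.fst ℂ V M).comp ΦL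
  let ε : (R.P 0).carrier →L[ℂ] M := R.ε_hom.1.toContinuousLinearMap
  let ι : (R.P 1).carrier →L[ℂ] (R.P 0).carrier := (R.d_hom 0).1.toContinuousLinearMap
  let s0 : (R.P 0).carrier →L[ℂ] (R.P 1).carrier := (R.s_bdd 0).toContinuousLinearMap
  let s' : M →L[ℂ] (R.P 0).carrier := R.s'_bdd.toContinuousLinearMap
  have hψ : ∀ a p, ψ ((R.P 0).act a p) = αV a (ψ p) + D a (ε p) := by
    intro a p
    have h1 : Φ ((R.P 0).act a p) = E.act a (Φ p) := hΦ.2 a p
    have h2 : (Φ p).2 = R.ε p := hΦ2 p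
    show (Φ ((R.P 0).act a p)).1 = αV a (Φ p).1 + D a (R.ε p)
    rw [h1, ← h2]
    rfl
  have hει : ∀ y, ε (ι y) = 0 := fun y => R.ε_d y
  have hεs : ∀ x, ε (s' x) = x := fun x => R.ε_s x
  have hεact : ∀ a p, ε ((R.P 0).act a p) = αM a (ε p) := fun a p => R.ε_hom.2 a p
  have hιact : ∀ a p, ι ((R.P 1).act a p) = (R.P 0).act a (ι p) := fun a p => (R.d_hom 0).2 a p
  have h0 : ∀ z, ε z = 0 → ι (s0 z) = z := by
    intro z hz
    have h1 : s' (ε z) + ι (s0 z) = z := R.h_zero z
    rw [hz, map_zero, zero_add] at h1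
    exact h1
  have hs0ι : ∀ y, s0 (ι y) = y := by
    intro y
    have h1 := R.h_succ 0 y
    have h2 : R.s (0 + 1) y = 0 := Subsingleton.elim _ _
    rw [h2] at h1
    have h3 : R.d (0 + 1) 0 = 0 := ((R.d_hom (0 + 1)).1.toContinuousLinearMap).map_zero
    rw [h3, add_zero] at h1
    exact h1
  have hιinj : ∀ y z, ι y = ι z → y = z := by
    intro y z hyz
    rw [← hs0ι y, hyz, hs0ι]
  -- lift θ = ψ ∘ ι
  obtain ⟨θ', hθ', hθ2⟩ := R.projective 1 (mkL Q αQ hQ) (mkL V αV hV) (fun y : Q => q y)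
    (fun y => ψ (ι y)) ⟨q.isBoundedLinearMap, fun a y => hq a y⟩
    ⟨fun v : V => s v, s.isBoundedLinearMap, hs⟩
    ⟨(ψ.comp ι).isBoundedLinearMap, fun a y => by
      show ψ (ι ((R.P 1).act a y)) = αV a (ψ (ι y))
      rw [hιact, hψ, hει, map_zero, add_zero]⟩
  let θL : (R.P 1).carrier →L[ℂ] Q := hθ'.1.toContinuousLinearMap
  have hθL : ∀ y, q (θL y) = ψ (ι y) := fun y => hθ2 y
  have hθact : ∀ a y, θL ((R.P 1).act a y) = αQ a (θL y) := fun a y => hθ'.2 a y
  let Act : A →L[ℂ] (R.P 0).carrier →L[ℂ] (R.P 0).carrier := (R.P 0).bdd.toContinuousLinearMap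
  have hAct : ∀ a p, Act a p = (R.P 0).act a p := fun a p => rfl
  let γ0 : A →L[ℂ] M →L[ℂ] (R.P 0).carrier :=
    (Act.flip.comp s').flip - (ContinuousLinearMap.compL ℂ M M (R.P 0).carrier s').comp αM
  have hγ0 : ∀ a x, γ0 a x = (R.P 0).act a (s' x) - s' (αM a x) := fun a x => rfl
  let γ : A →L[ℂ] M →L[ℂ] (R.P 1).carrier :=
    (ContinuousLinearMap.compL ℂ M (R.P 0).carrier (R.P 1).carrier s0).comp γ0
  have hγ : ∀ a x, γ a x = s0 (γ0 a x) := fun a x => rfl
  have hιγ : ∀ a x, ι (γ a x) = (R.P 0).act a (s' x) - s' (αM a x) := by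
    intro a x
    rw [hγ, h0, hγ0]
    rw [hγ0, map_sub, hεact, hεs, hεs, sub_self]
  have hactsub : ∀ a (x y : (R.P 0).carrier), (R.P 0).act a (x - y) =
      (R.P 0).act a x - (R.P 0).act a y := by
    intro a x y
    rw [← hAct, ← hAct, ← hAct, map_sub]
  have hγmul : ∀ a b x, γ (a * b) x = (R.P 1).act a (γ b x) + γ a (αM b x) := by
    intro a b x
    apply hιinj
    rw [map_add, hιact, hιγ, hιγ, hιγ, hactsub, (R.P 0).act_mul, hM]
    abel
  refine ⟨(ContinuousLinearMap.compL ℂ M (R.P 1).carrier Q θL).comp γ, -(ψ.comp s'), ?_, ?_⟩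
  · intro a b x
    show θL (γ (a * b) x) = αQ a (θL (γ b x)) + θL (γ a (αM b x))
    rw [hγmul, map_add, hθact]
  · intro a x
    show D a x = q (θL (γ a x)) + αV a (-(ψ (s' x))) - (-(ψ (s' (αM a x))))
    rw [hθL, hιγ, map_sub, hψ, hεs, map_neg]
    abel

end Pool.Agent.Helper133.CD
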